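import Mathlib

namespace Pool.Agent.H.MP_0f9677_co

/-- maximum average degree: supremum (a maximum, the set is finite) of 2|E(H)|/|V(H)| over
subgraphs H with at least one vertex -/
noncomputable def Mad {V : Type} (G : SimpleGraph V) : ℝ :=
  sSup {d | ∃ H : G.Subgraph, H.verts.Nonempty ∧
    d = 2 * (H.edgeSet.ncard : ℝ) / (H.verts.ncard : ℝ)}

/-- a clique on the first x vertices, the others isolated -/
def cl (n x : ℕ) : SimpleGraph (Fin n) where
  Adj u v := u ≠ v ∧ u.val < x ∧ v.val < x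
  symm := ⟨fun _ _ h => ⟨h.1.symm, h.2.2, h.2.1⟩⟩
  loopless := ⟨fun _ h => h.1 rfl⟩

/-- the value (x-1)(n-x)(n+x-1)/n -/
noncomputable def phi (n x : ℕ) : ℝ := ((x : ℝ) - 1) * (n - x) * (n + x - 1) / n

theorem unit (a b T : ℝ) (h0 : 0 ≤ a) (hab : a ≤ b) (hb : b ≤ 1) (hT : 0 ≤ T) (h1 : T ≤ 2 * a ^ 2)
    (h2 : T ≤ 1 - 2 * (1 - a) * (1 - b)) : T ^ 2 ≤ 3 / 2 * a * b := by
  have e1 : T ^ 2 ≤ (2 * a ^ 2) ^ 2 := pow_le_pow_left₀ hT h1 2
  have e2 : T ^ 2 ≤ (1 - 2 * (1 - a) * (1 - b)) ^ 2 := pow_le_pow_left₀ hT h2 2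
  by_cases c1 : a ≤ 61 / 100
  · have : a ^ 2 ≤ 3 / 8 := by nlinarith
    have : a ^ 2 * a ^ 2 ≤ 3 / 8 * (a * b) := mul_le_mul this (by nlinarith) (by positivity) (by norm_num)
    nlinarith
  by_cases c2 : a ≤ 2 / 3 ∧ 4 / 5 ≤ b
  · have : a ^ 3 ≤ (2 / 3) ^ 3 := pow_le_pow_left₀ h0 c2.1 3
    have : a * a ^ 3 ≤ a * (3 / 8 * b) := mul_le_mul_of_nonneg_left (by nlinarith) h0
    nlinarith
  refine e2.trans ?_
  obtain ⟨u, rfl⟩ : ∃ u, a = 1 - u := ⟨1 - a, by ring⟩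
  obtain ⟨v, rfl⟩ : ∃ v, b = 1 - v := ⟨1 - b, by ring⟩
  have hv : 0 ≤ v := by linarith
  have hu : v ≤ u := by linarith
  have huv : 0 ≤ u * v := mul_nonneg (by linarith) hv
  by_cases c3 : u ≤ 1 / 3
  · have : u * v ≤ 1 / 9 := by nlinarith
    have : (u * v) * (u * v) ≤ (u * v) * (1 / 9) := mul_le_mul_of_nonneg_left this huv
    have : 0 ≤ 1 / 2 - 3 / 2 * u - 3 / 2 * v + 5 * (u * v) := by
      by_cases c4 : 3 / 10 ≤ u
      · nlinarith
      · nlinarith [mul_nonneg (sub_nonneg.2 hu) (show 0 ≤ 3 / 10 - u by linarith), sq_nonneg (u - 3 / 10)]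
    nlinarith
  · have hv2 : 1 / 5 ≤ v := by
      by_contra h; exact c2 ⟨by linarith, by linarith⟩
    have : u * v ≤ 16 / 100 := by nlinarith
    have : (u * v) * (u * v) ≤ (u * v) * (22 / 100) - 96 / 10000 := by
      nlinarith [mul_nonneg (show 0 ≤ 16 / 100 - u * v by linarith) (show 0 ≤ u * v - 6 / 100 by nlinarith)]
    nlinarith [mul_nonneg (show 0 ≤ u - 1 / 3 by linarith) (show 0 ≤ v - 1 / 5 by linarith)]

def chk (n : ℕ) : Bool := (List.range (n + 1)).all fun b => (List.range (b + 1)).all fun a =>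
  let T := n * (n - 1) - 2 * (n - a) * (n - b)
  let y := (4 * n + 7) / 7
  (a + b ≤ n) || (2 * (a * (a - 1)) ≤ T) || (T * T * n ≤ 4 * a * b * ((y - 1) * (n - y) * (n + y - 1)))

theorem chk_all : (List.range 90).all (fun k => chk (k + 3)) = true := by decide +kernel

theorem big (n y : ℕ) (hn : 93 ≤ n) (hy : y = (4 * n + 7) / 7) :
    3 * (n : ℝ) ^ 3 ≤ 8 * (((y : ℝ) - 1) * (n - y) * (n + y - 1)) := by
  obtain ⟨k, rfl⟩ := Nat.exists_eq_add_of_le' hn
  obtain ⟨r, hr, h⟩ : ∃ r : ℕ, r ≤ 6 ∧ 7 * y = 4 * (k + 93) + r + 1 := ⟨7 * y - 4 * (k + 93) - 1, by omega, by omega⟩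
  have e : (y : ℝ) = (4 * (k + 93) + r + 1) / 7 := by
    rw [eq_div_iff (by norm_num)]; exact_mod_cast (by omega : y * 7 = 4 * (k + 93) + r + 1)
  rw [e]
  have hk : (0 : ℝ) ≤ k := Nat.cast_nonneg k
  have h2 := mul_nonneg hk hk
  have h3 := mul_nonneg hk h2
  push_cast
  interval_cases r <;> push_cast <;> nlinarith

theorem mid (n a b T : ℕ) (h3 : 3 ≤ n) (hab : a ≤ b) (hb : b ≤ n) (h : n < a + b)
    (h1 : (T : ℝ) < 2 * (a * (a - 1))) (h2 : (T : ℝ) = n * (n - 1) - 2 * (n - a) * (n - b)) :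
    ∃ y : ℕ, 1 ≤ y ∧ y ≤ n ∧
      (T : ℝ) * T * n ≤ 4 * a * b * (((y : ℝ) - 1) * (n - y) * (n + y - 1)) := by
  refine ⟨(4 * n + 7) / 7, by omega, by omega, ?_⟩
  by_cases hn : 93 ≤ n
  · have hb2 := big n _ hn rfl
    have n0 : (0 : ℝ) < n := by exact_mod_cast (by omega : 0 < n)
    have a0 : (0 : ℝ) ≤ a := Nat.cast_nonneg a
    have b0 : (0 : ℝ) ≤ b := Nat.cast_nonneg b
    have := unit (a / n) (b / n) (T / n ^ 2) (by positivity)
      (div_le_div_of_nonneg_right (by exact_mod_cast hab) n0.le)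
      ((div_le_one n0).2 (by exact_mod_cast hb)) (by positivity)
      (by rw [div_pow, ← mul_div_assoc]; exact div_le_div_of_nonneg_right (by nlinarith) (by positivity))
      (by rw [div_le_iff₀ (by positivity)]; field_simp; nlinarith)
    have e : (T : ℝ) ^ 2 ≤ 3 / 2 * a * b * n ^ 2 := by
      have e1 : (T : ℝ) ^ 2 = (T / n ^ 2) ^ 2 * n ^ 4 := by field_simp
      have e2 : 3 / 2 * (a : ℝ) * b * n ^ 2 = 3 / 2 * (a / n) * (b / n) * n ^ 4 := by field_simp
      rw [e1, e2]; exact mul_le_mul_of_nonneg_right this (by positivity)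
    have := mul_le_mul_of_nonneg_right e n0.le
    have := mul_le_mul_of_nonneg_left hb2 (mul_nonneg a0 b0)
    nlinarith
  · have := List.all_eq_true.1 chk_all (n - 3) (by simp; omega)
    rw [show n - 3 + 3 = n by omega] at this
    have := List.all_eq_true.1 (List.all_eq_true.1 this b (by simp; omega)) a (by simp; omega)
    have hT : T = n * (n - 1) - 2 * (n - a) * (n - b) := by
      apply Nat.eq_sub_of_add_eq
      have : ((T + 2 * (n - a) * (n - b) : ℕ) : ℝ) = (n * (n - 1) : ℕ) := by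
        push_cast [Nat.cast_sub (hab.trans hb), Nat.cast_sub hb, Nat.cast_sub (show 1 ≤ n by omega)]
        linarith
      exact_mod_cast this
    simp only [← hT, Bool.or_eq_true, decide_eq_true_eq] at this
    generalize hy : (4 * n + 7) / 7 = y at this ⊢
    rcases this with (h4 | h4) | h4
    · omega
    · have : ((2 * (a * (a - 1)) : ℕ) : ℝ) ≤ T := by exact_mod_cast h4
      push_cast [Nat.cast_sub (show 1 ≤ a by omega)] at this
      linarith
    · have : ((T * T * n : ℕ) : ℝ) ≤ (4 * a * b * ((y - 1) * (n - y) * (n + y - 1)) : ℕ) := by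
        exact_mod_cast h4
      push_cast [Nat.cast_sub (show 1 ≤ y by omega), Nat.cast_sub (show y ≤ n by omega),
        Nat.cast_sub (show 1 ≤ n + y by omega)] at this
      exact this

theorem arith (n a b c p q : ℕ) (ha : 1 ≤ a) (hab : a ≤ b) (hb : b ≤ n) (hc : a + b ≤ n + c)
    (hP : 2 * p + a ≤ a * a) (hQ : 2 * q + b ≤ b * b)
    (hS : 2 * p + 2 * q + a + b + c * c ≤ a * a + b * b + c) :
    ∃ y : ℕ, 1 ≤ y ∧ y ≤ n ∧ (2 * (p : ℝ) / a) * (2 * (q : ℝ) / b) ≤ phi n y := by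
  have a1 : (1 : ℝ) ≤ a := by exact_mod_cast ha
  have ab : (a : ℝ) ≤ b := by exact_mod_cast hab
  have bn : (b : ℝ) ≤ n := by exact_mod_cast hb
  have p0 : (0 : ℝ) ≤ p := Nat.cast_nonneg p
  have q0 : (0 : ℝ) ≤ q := Nat.cast_nonneg q
  have hP' : 2 * (p : ℝ) + a ≤ a * a := by exact_mod_cast hP
  have hQ' : 2 * (q : ℝ) + b ≤ b * b := by exact_mod_cast hQ
  have hS' : 2 * (p : ℝ) + 2 * q + a + b + c * c ≤ a * a + b * b + c := by exact_mod_cast hS
  suffices h : ∃ y : ℕ, 1 ≤ y ∧ y ≤ n ∧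
      (2 * (p : ℝ)) * (2 * q) * n ≤ a * b * (((y : ℝ) - 1) * (n - y) * (n + y - 1)) by
    obtain ⟨y, h1, h2, h3⟩ := h
    refine ⟨y, h1, h2, ?_⟩
    rw [phi, div_mul_div_comm, div_le_div_iff₀ (mul_pos (by linarith) (by linarith)) (by linarith)]
    linarith
  by_cases c1 : a + b ≤ n
  · have c1' : (a : ℝ) + b ≤ n := by exact_mod_cast c1
    refine ⟨a, ha, hab.trans hb, ?_⟩
    have e1 : (2 * (p : ℝ)) * (2 * q) ≤ (a * (a - 1)) * (b * (b - 1)) :=
      mul_le_mul (by linarith) (by linarith) (by positivity) (by nlinarith)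
    have e2 : ((b : ℝ) - 1) * n ≤ (n - a) * (n + a - 1) :=
      mul_le_mul (by linarith) (by linarith) (by linarith) (by linarith)
    have e3 := mul_le_mul_of_nonneg_left e2 (show (0 : ℝ) ≤ a * b * (a - 1) by
      have : (0 : ℝ) ≤ a - 1 := by linarith
      positivity)
    have e4 := mul_le_mul_of_nonneg_right e1 (show (0 : ℝ) ≤ n by linarith)
    nlinarith
  have c1' : (n : ℝ) + 1 ≤ a + b := by exact_mod_cast (by omega : n + 1 ≤ a + b)
  have hc' : (a : ℝ) + b ≤ n + c := by exact_mod_cast hc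
  have hT : 2 * (p : ℝ) + 2 * q ≤ n * (n - 1) - 2 * (n - a) * (n - b) := by
    nlinarith [mul_nonneg (show (0 : ℝ) ≤ c - (a + b - n) by linarith)
      (show (0 : ℝ) ≤ c + (a + b - n) - 1 by linarith)]
  obtain ⟨T, hT2⟩ : ∃ T : ℕ, (T : ℝ) = n * (n - 1) - 2 * (n - a) * (n - b) := by
    obtain ⟨T, h⟩ := Int.eq_ofNat_of_zero_le (a := (n : ℤ) * (n - 1) - 2 * (n - a) * (n - b))
      (by have : (0 : ℝ) ≤ n * (n - 1) - 2 * (n - a) * (n - b) := by linarith
          exact_mod_cast this)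
    exact ⟨T, by exact_mod_cast h.symm⟩
  by_cases c2 : 2 * ((a : ℝ) * (a - 1)) ≤ T
  · refine ⟨a, ha, hab.trans hb, ?_⟩
    have e1 : (2 * (p : ℝ)) * (2 * q) ≤ (a * (a - 1)) * (T - a * (a - 1)) := by
      nlinarith [mul_nonneg (show (0 : ℝ) ≤ a * (a - 1) - 2 * p by linarith)
        (show (0 : ℝ) ≤ T - a * (a - 1) - 2 * p by linarith),
        mul_nonneg p0 (show (0 : ℝ) ≤ T - 2 * p - 2 * q by linarith)]
    have e2 : ((T : ℝ) - a * (a - 1)) * n ≤ b * ((n - a) * (n + a - 1)) := by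
      rw [hT2]
      nlinarith [mul_nonneg (mul_nonneg (show (0 : ℝ) ≤ n - a by linarith)
        (show (0 : ℝ) ≤ n - b by linarith)) (show (0 : ℝ) ≤ n - a + 1 by linarith)]
    have e3 := mul_le_mul_of_nonneg_left e2 (show (0 : ℝ) ≤ a * (a - 1) by nlinarith)
    have e4 := mul_le_mul_of_nonneg_right e1 (show (0 : ℝ) ≤ n by linarith)
    nlinarith
  by_cases c3 : 3 ≤ n
  · obtain ⟨y, h1, h2, h3⟩ := mid n a b T c3 hab hb (by omega) (not_le.1 c2) hT2
    refine ⟨y, h1, h2, ?_⟩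
    have e1 : 4 * ((2 * (p : ℝ)) * (2 * q)) ≤ T * T := by
      nlinarith [sq_nonneg ((p : ℝ) - q), mul_nonneg (show (0 : ℝ) ≤ T - 2 * p - 2 * q by linarith)
        (show (0 : ℝ) ≤ T + 2 * p + 2 * q by positivity)]
    have e4 := mul_le_mul_of_nonneg_right e1 (show (0 : ℝ) ≤ n by linarith)
    nlinarith
  · refine ⟨1, le_rfl, by omega, ?_⟩
    have : p = 0 ∨ q = 0 := by
      have : n ≤ 2 := by omega
      have : b ≤ 2 := by omega
      have : a ≤ 2 := by omega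
      have : c ≤ c * c := Nat.le_mul_self c
      interval_cases b <;> interval_cases a
      · omega
      · omega
      · have : 2 ≤ c := by omega
        have : 2 * c ≤ c * c := Nat.mul_le_mul_right c this
        omega
    rcases this with rfl | rfl <;> simp

end Pool.Agent.H.MP_0f9677_co
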